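import Pool.Agent.U79.GX.Stm
import Pool.Agent.U115.GE.Defs

/-!
# Project GY (helper79): exponential moments for general classes of split primes

In the projects GD, GX the split primes are `1` modulo `8` and squares modulo all bad primes, and `D` is a
square at the bad places. Here the split primes are the primes of an ARBITRARY set `A` of residues
modulo `Q`, the inert primes those of an arbitrary set `B` of residues, and there is no condition on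
the product. Final aim: for `E : y² = x³ + a x² + b x` with `b`, `c = a² - 4 b` not squares, ALL squarefree
integers `D` whose prime factors split in `ℚ(√(b c))` (all squarefree `D` if `b c` is a square!), and every
multiquadratic field `K`, the means of `2 ^ (r rank E_D(K))` are bounded for all `r`.
Statements of the parts.
-/

set_option autoImplicit false
set_option linter.unusedVariables false

open scoped Classical

namespace Pool.Agent.U79.GY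

open Finset hiding ext
open Filter
open Pool.Agent.Y703.CX (sm la jj XX eL zz kk S_SIE)
open Pool.Agent.Y703.CQ (nr sg prs HB S_EQ ext)
open Pool.Agent.U115.GD (S_MER S_CHE)
open Pool.Agent.U115.GE (sel)
open Pool.Agent.U79.MO (SolA)
open Pool.Agent.U79.GX (Cr)

/-- the data: the modulus, the residues of the split primes, the residues of the inert primes -/
structure Cfg where
  Q : ℕ
  A : Finset ℕ
  B : Finset ℕ

/-- the residue of a split prime -/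
def Hc (G : Cfg) (n : ℕ) : Prop := n % G.Q ∈ G.A

/-- the conditions -/
structure Ok (G : Cfg) : Prop where
  q0 : 0 < G.Q
  q8 : 8 ∣ G.Q
  hA : ∀ r ∈ G.A, r < G.Q ∧ Nat.Coprime r G.Q
  hB : ∀ r ∈ G.B, r < G.Q ∧ Nat.Coprime r G.Q ∧ r ∉ G.A
  hAn : G.A.Nonempty
  hBn : G.B.Nonempty

/-- the split primes -/
def Sp (G : Cfg) (p : ℕ) : Prop := p.Prime ∧ Hc G p

/-- the inert primes -/
def In (G : Cfg) (r : ℕ) : Prop := r.Prime ∧ r % G.Q ∈ G.B

/-- the rows of the matrix; the columns and rows are the primes of `S` with the property `P` -/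
def SolP (P : ℕ → Prop) (f : ℕ → ZMod 2) (S : Finset ℕ) (x : ℕ → ZMod 2) : Prop :=
  ∀ p ∈ S, P p → ∑ q ∈ S, nr p q * (x q + x p) + f p * x p = 0

/-- the number of elements of the kernel -/
noncomputable def nkP (P : ℕ → Prop) (f : ℕ → ZMod 2) (S : Finset ℕ) : ℕ :=
  Nat.card {x : ℕ → ZMod 2 // (∀ p, ¬ (p ∈ S ∧ P p) → x p = 0) ∧ SolP P f S x}

/-- the number of elements of the kernel for the configuration `G` -/
noncomputable def nk (G : Cfg) (f : ℕ → ZMod 2) (S : Finset ℕ) : ℕ := nkP (Hc G) f S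

/-- the class of the sets of primes -/
def Cl (G : Cfg) (S : Finset ℕ) : Prop := ∀ p ∈ S, Sp G p ∨ In G p

/-- the sets of the class with product at most `X` -/
noncomputable def SS (G : Cfg) (X : ℕ) : Finset (Finset ℕ) :=
  (range (X + 1)).powerset.filter fun S => Cl G S ∧ ∏ p ∈ S, p ≤ X

/-- the density of the split primes -/
noncomputable def da (G : Cfg) : ℝ := (G.A.card : ℝ) / (Nat.totient G.Q : ℝ)

/-- the density of the inert primes -/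
noncomputable def db (G : Cfg) : ℝ := (G.B.card : ℝ) / (Nat.totient G.Q : ℝ)

/-- the density of the primes of the class -/
noncomputable def dl (G : Cfg) : ℝ := da G + db G

/-- `1` if `p` is `3` modulo `4` -/
def s4 (p : ℕ) : ZMod 2 := if p % 4 = 3 then 1 else 0

/-- the labels of the large split primes with respect to the small ones are not degenerate, also with
the character modulo `4` -/
def Nd (G : Cfg) (S₀ S₁ : Finset ℕ) : Prop :=
  ∀ (w : ℕ → ZMod 2) (ε : ZMod 2), (∃ u ∈ S₀, Hc G u ∧ w u ≠ 0) →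
    ∃ p ∈ S₁, Hc G p ∧ ∑ u ∈ S₀.filter (fun u => Hc G u), w u * nr p u + ε * s4 p ≠ 0

/-- GY-BIL: bilinear sums of quadratic symbols (from `Pool/Agent/Y710/CQ/BIL.lean`). -/
def S_BIL : Prop := ∃ C : ℝ, 1 ≤ C ∧ ∀ (P Q : Finset ℕ) (A B z : ℕ) (c d : ℕ → ℂ),
  (∀ p ∈ P, p.Prime ∧ p ≠ 2 ∧ p ≤ A) → (∀ q ∈ Q, q.Prime ∧ q ≠ 2 ∧ q ≤ B) →
  Disjoint P Q → 1 ≤ z → z ≤ A → z ≤ B → (∀ p, ‖c p‖ ≤ 1) → (∀ q, ‖d q‖ ≤ 1) →
  ‖∑ p ∈ P, ∑ q ∈ Q, c p * d q * sg (nr p q)‖ ^ 12 * z ≤ C * ((A : ℝ) * B) ^ 12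

/-- GY-LA: the `r`-th moment of the number of solutions of a random symmetric completion with a fixed
correction `e` (template `Pool/Agent/U79/GX/LA3.lean`). -/
def S_LA : Prop := ∀ (r : ℕ) (U J : Type) [Fintype U] [Fintype J] [LinearOrder J]
    (U1 : Finset U) (J1 : Finset J) (A : U → U → ZMod 2) (B : U → J → ZMod 2)
    (C : J → U → ZMod 2) (e : J → J → ZMod 2) (f : U → ZMod 2) (g : J → ZMod 2),
  ((∃ l, l ∉ J1) →
    (∀ w : U → ZMod 2, (∀ u, u ∉ U1 → w u = 0) → (∃ u, w u ≠ 0) →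
      ∃ k ∈ J1, ∑ u, w u * B u k ≠ 0) →
    (∀ w : U → ZMod 2, (∀ u, u ∉ U1 → w u = 0) → (∃ u, w u ≠ 0) →
      ∃ k ∈ J1, ∑ u, w u * C k u ≠ 0) →
    ∑ α : prs J1 → ZMod 2, ((univ.filter fun z : (U → ZMod 2) × (J → ZMod 2) =>
      SolA U1 J1 A B C (fun j l => ext α j l + e j l) f g z).card : ℝ) ^ r ≤
      Cr r * 2 ^ (prs J1).card) ∧
  ∑ α : prs J1 → ZMod 2, ((univ.filter fun z : (U → ZMod 2) × (J → ZMod 2) =>
      SolA U1 J1 A B C (fun j l => ext α j l + e j l) f g z).card : ℝ) ^ r ≤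
    (2 ^ (Fintype.card U + 1)) ^ r * (Cr r * 2 ^ (prs J1).card)

/-- the weight of a set with the small primes `S₀` and the large primes `S₁` -/
noncomputable def wt (G : Cfg) (r : ℕ) (S₀ S₁ : Finset ℕ) : ℝ :=
  if Nd G S₀ S₁ ∧ ∃ p ∈ S₁, ¬ Hc G p then 1 else (2 ^ (S₀.card + 1)) ^ r

/-- GY-BOX: the `r`-th moment in a box (template `Pool/Agent/U780/GX/BOX.lean`). -/
def S_BOX : Prop := S_EQ → S_LA → ∀ (G : Cfg) (f : ℕ → ZMod 2) (r : ℕ) (ι : Type) [Fintype ι]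
  [LinearOrder ι] (J1 : Finset ι) (C : ι → Finset ℕ) (X : ι → ℕ) (κ : ℝ) (S₀ : Finset ℕ)
  (s : ι → ℕ), 0 ≤ κ → (∀ i, (C i).card ≤ X i) → HB J1 C X κ → (∀ u ∈ S₀, u.Prime ∧ u ≠ 2) →
  (∀ i, ∀ p ∈ C i, p.Prime ∧ p ≠ 2 ∧ p ∉ S₀ ∧ (i ∈ J1 ↔ Hc G p) ∧ p % 4 = s i) →
  (∀ i l, i ≠ l → Disjoint (C i) (C l)) →
  ∑ p ∈ Fintype.piFinset C, (nk G f (S₀ ∪ univ.image p) : ℝ) ^ r ≤
    Cr r * ∑ p ∈ Fintype.piFinset C, wt G r S₀ (univ.image p) +
    2 ^ ((2 * S₀.card + 1) * Fintype.card ι + (prs J1).card + r * (S₀.card + Fintype.card ι)) *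
      (κ * ∏ j, (X j : ℝ))

/-- the sets which fit into boxes -/
noncomputable def RE (G : Cfg) (X z H k : ℕ) : Finset (Finset ℕ) :=
  (SS G X).filter fun S => Set.InjOn (jj H) (la z S : Set ℕ) ∧ S.card ≤ k ∧
    (∏ p ∈ sm z S, p) * ∏ p ∈ la z S, XX H (jj H p) ≤ X

/-- the sum over the boxes -/
def KEYC : Prop := ∃ C : ℝ, 1 ≤ C ∧
  ∀ (G : Cfg) (f : ℕ → ZMod 2) (r X z H k N : ℕ) (κ : ℝ), Ok G → 1 ≤ X → 1 ≤ H → 1 ≤ z →
  0 ≤ κ → C ≤ κ ^ 12 * z → (H : ℝ) * Real.log X < N →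
  ∑ S ∈ RE G X z H k, (nk G f S : ℝ) ^ r ≤
    Cr r * ∑ S ∈ RE G X z H k, wt G r (sm z S) (la z S) +
    (((G.Q : ℝ) + 1) * (N + 1)) ^ k * (2 ^ ((r + 5) * k ^ 2) * κ) * (X * (1 + Real.log X))

/-- GY-KEY (templates `Pool/Agent/U411/GX/KEY.lean` and, for the block structure,
`Pool/Agent/U295/GD/KEY.lean`). -/
def S_KEY : Prop := S_BIL → S_EQ → S_LA → S_BOX → KEYC

/-- GY-CNT: sets with many primes, sets near the boundary, sets with two primes in a block (template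
`Pool/Agent/U643/GD/CNT.lean`). -/
structure CntP : Prop where
  many : ∀ (G : Cfg) (X k : ℕ), Ok G → 1 ≤ X →
    (((SS G X).filter fun S => k < S.card).card : ℝ) * 2 ^ k ≤ X * (1 + Real.log X)
  cut : ∀ (G : Cfg) (X z H k : ℕ), Ok G → 1 ≤ X → 1 ≤ H →
    (((SS G X).filter fun S => S.card ≤ k ∧
      X < (∏ p ∈ sm z S, p) * ∏ p ∈ la z S, XX H (jj H p)).card : ℝ) ≤ X * k / H + 1
  coll : ∀ (G : Cfg) (X z H : ℕ), Ok G → 1 ≤ X → 1 ≤ H → (((SS G X).filter fun S =>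
    ¬ Set.InjOn (jj H) (la z S : Set ℕ)).card : ℝ) ≤ 4 * X * (1 + Real.log X) / H

/-- the sets of split primes on which `(-1) ^ ε` times the product of the primes in `W` is a square -/
noncomputable def HD (G : Cfg) (W : Finset ℕ) (ε : ZMod 2) (T : ℕ) : Finset (Finset ℕ) :=
  (range (T + 1)).powerset.filter fun S =>
    (∀ p ∈ S, Sp G p ∧ p ∉ W ∧ ∑ u ∈ W, nr p u + ε * s4 p = 0) ∧ ∏ p ∈ S, p ≤ T

/-- the bound for the logarithmic density of these sets -/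
def HALP (G : Cfg) : Prop := ∃ C : ℝ, 1 ≤ C ∧ ∀ (W : Finset ℕ) (ε : ZMod 2) (T : ℕ), W.Nonempty →
  (∀ u ∈ W, u.Prime ∧ Hc G u) → 2 ≤ T →
  ∑ S ∈ HD G W ε T, (1 : ℝ) / ((∏ p ∈ S, p : ℕ) : ℝ) ≤
    C * (Real.log ((∏ u ∈ W, u : ℕ) : ℝ)) ^ (1 / 2 : ℝ) * (Real.log T) ^ (da G / 2 : ℝ)

/-- GY-BAD: few sets have degenerate labels (template `Pool/Agent/U674/GD/BAD.lean`). -/
def S_BAD : Prop := S_SIE → S_MER → ∀ G : Cfg, Ok G → HALP G →
  ∃ (δ C : ℝ) (X₀ : ℕ), 0 < δ ∧ ∀ X : ℕ, X₀ ≤ X →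
  (((SS G X).filter fun S => S.card ≤ kk X ∧ ¬ Nd G (sm (zz X) S) (la (zz X) S)).card : ℝ) ≤
    C * X * (Real.log X) ^ (-1 + dl G - δ : ℝ)

/-- GY-FEW: few sets have no large inert prime (template: `part2`, `part3` of
`Pool/Agent/U998/GD/FEW.lean`). -/
def S_FEW : Prop := S_SIE → S_MER → ∀ G : Cfg, Ok G →
  ∃ (δ C : ℝ) (X₀ : ℕ), 0 < δ ∧ ∀ X : ℕ, X₀ ≤ X →
  (((SS G X).filter fun S => ∀ p ∈ la (zz X) S, Hc G p).card : ℝ) ≤
    C * X * (Real.log X) ^ (-1 + dl G - δ : ℝ)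

/-- GY-LOW: the lower bound for the size of the class (template `Pool/Agent/U2/GD/LOW.lean`; no
condition on the product, as in `Pool/Agent/R413/SQ/LOW.lean`). -/
def S_LOW : Prop := S_MER → S_CHE → ∀ G : Cfg, Ok G →
  ∃ (c : ℝ) (X₀ : ℕ), 0 < c ∧ ∀ X : ℕ, X₀ ≤ X →
  c * X * (Real.log X) ^ (-1 + dl G : ℝ) ≤ ((SS G X).card : ℝ)

/-- GY-ASY: the asymptotic analysis (template `Pool/Agent/U587/GX/ASY.lean`). -/
def S_ASY : Prop := KEYC → CntP → S_SIE → S_BAD → S_FEW → S_MER → S_CHE → S_LOW →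
  ∀ (G : Cfg) (f : ℕ → ZMod 2) (r : ℕ), Ok G → HALP G → ∃ C : ℝ, 0 ≤ C ∧ ∀ᶠ X : ℕ in atTop,
    ∑ S ∈ SS G X, (nk G f S : ℝ) ^ r ≤ C * ((SS G X).card : ℝ)

/-! ### arithmetic -/

/-- the conditions on the modulus -/
structure Mod (b c : ℤ) (M : ℕ) : Prop where
  pos : 0 < M
  two : 2 ∣ M
  hb : b.natAbs ∣ M
  hc : c.natAbs ∣ M

/-- the configuration: `b`, `c` are both squares or both nonsquares modulo the primes of the class -/
noncomputable def cfg (b c : ℤ) (M : ℕ) : Cfg where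
  Q := 4 * M
  A := (range (4 * M)).filter fun r => Nat.Coprime r (4 * M) ∧ jacobiSym b r = 1 ∧ jacobiSym c r = 1
  B := (range (4 * M)).filter fun r => Nat.Coprime r (4 * M) ∧ jacobiSym b r = -1 ∧
    jacobiSym c r = -1

/-- GY-CFG (template `Pool/Agent/U643/GD/CFG.lean`). -/
def S_CFG : Prop := ∀ (b c : ℤ) (M : ℕ), Mod b c M → ¬ IsSquare b → ¬ IsSquare c →
  Ok (cfg b c M) ∧
  (∀ p : ℕ, p.Prime → (Sp (cfg b c M) p ↔
    ¬ p ∣ M ∧ IsSquare (b : ZMod p) ∧ IsSquare (c : ZMod p))) ∧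
  (∀ p : ℕ, p.Prime → (In (cfg b c M) p ↔
    ¬ p ∣ M ∧ ¬ IsSquare (b : ZMod p) ∧ ¬ IsSquare (c : ZMod p)))

/-- GY-DEN: the density of the split primes. -/
def S_DEN : Prop := ∀ (b c : ℤ) (M : ℕ), Mod b c M → ¬ IsSquare b → ¬ IsSquare c →
  (¬ IsSquare (b * c) → da (cfg b c M) = 1 / 4) ∧ (IsSquare (b * c) → da (cfg b c M) = 1 / 2)

/-- the products of the elements of the nonempty subsets are not squares -/
def Ind (V : Finset ℤ) : Prop := ∀ V' ⊆ V, V'.Nonempty → ¬ IsSquare (∏ a ∈ V', a)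

/-- the sets of odd primes modulo which the elements of `V` are nonzero squares -/
noncomputable def HZ (V : Finset ℤ) (T : ℕ) : Finset (Finset ℕ) :=
  (range (T + 1)).powerset.filter fun S =>
    (∀ p ∈ S, p.Prime ∧ p ≠ 2 ∧ ∀ a ∈ V, jacobiSym a p = 1) ∧ ∏ p ∈ S, p ≤ T

/-- GY-HAL1: logarithmic density for independent quadratic characters (template
`Pool/Agent/U158/GD/HAL.lean`; the characters are `n ↦ (a / n)` for odd `n`, `a ∈ insert w V`, with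
period `4 |a|`, `jacobiSym.mod_right`; no reciprocity is needed). -/
def S_HAL1 : Prop := ∀ V : Finset ℤ, Ind V → ∃ C : ℝ, 1 ≤ C ∧ ∀ (w : ℤ) (T : ℕ), 3 ≤ w.natAbs →
  w ∉ V → Ind (insert w V) → 2 ≤ T →
  ∑ S ∈ HZ (insert w V) T, (1 : ℝ) / ((∏ p ∈ S, p : ℕ) : ℝ) ≤
    C * (Real.log (w.natAbs : ℝ)) ^ (1 / 2 : ℝ) * (Real.log T) ^ ((1 : ℝ) / 2 ^ (V.card + 1))

/-- GY-HAL2: `V = {b, c}` or, if `b c` is a square, `V = {b}`, and `w = (-1) ^ ε ∏ W`. -/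
def S_HAL2 : Prop := S_HAL1 → S_DEN → S_CFG → ∀ (b c : ℤ) (M : ℕ), Mod b c M → ¬ IsSquare b →
  ¬ IsSquare c → HALP (cfg b c M)

/-- GY-DSC: the upper bound for the Selmer set of the twist by the product of the primes in `S`
(the local lemmas are in `Pool/Agent/U115/GE/{Loc,Sel}.lean`: `lsol_of_qs`, `LSol.sq`, `rt1G`, `no_mG`,
`sel_dvd`). -/
def S_DSC : Prop := ∀ (a b : ℤ) (M : ℕ), Mod b (a ^ 2 - 4 * b) M → b ≠ 0 → a ^ 2 - 4 * b ≠ 0 →
  ∃ f : ℕ → ZMod 2, ∀ (P : ℕ → Prop) (S : Finset ℕ),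
    (∀ p ∈ S, p.Prime ∧ ¬ p ∣ M ∧
      (P p ∧ IsSquare (b : ZMod p) ∧ IsSquare ((a ^ 2 - 4 * b : ℤ) : ZMod p) ∨
      ¬ P p ∧ ¬ IsSquare (b : ZMod p) ∧ ¬ IsSquare ((a ^ 2 - 4 * b : ℤ) : ZMod p))) →
    sel (a * (∏ p ∈ S, p : ℕ)) (b * ((∏ p ∈ S, p : ℕ) : ℤ) ^ 2) ≤
      2 ^ (M.primeFactors.card + 1) * nkP P f S

end Pool.Agent.U79.GY
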