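import Pool.Agent.U79.GY.FIN4
import Pool.Agent.U464.GY.ASY
import Pool.Agent.U395.GY.BAD
import Pool.Agent.U864.GY.BIL
import Pool.Agent.U56.GY.BOX
import Pool.Agent.U263.GY.CFG
import Pool.Agent.U278.GY.CNT
import Pool.Agent.U454.GY.DEN
import Pool.Agent.U780.GY.FEW
import Pool.Agent.U796.GY.HAL1
import Pool.Agent.U141.GY.HAL2
import Pool.Agent.U395.GY.KEY
import Pool.Agent.U951.GY.LA
import Pool.Agent.U891.GY.LOW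
import Pool.Agent.U255.GY.DSC

/-!
# Project GY (helper79): the moments over the class
-/

set_option autoImplicit false

namespace Pool.Agent.U79.GY

theorem t_MAIN : S_MAIN := main_of Pool.Agent.U864.GY.t_BIL Pool.Agent.Y356.CQ.t_EQ
  Pool.Agent.U951.GY.t_LA Pool.Agent.U56.GY.t_BOX Pool.Agent.U395.GY.KEY.t_KEY
  Pool.Agent.U278.GY.t_CNT Pool.Agent.Y488.CX.t_SIE Pool.Agent.U395.GY.BAD.t_BAD
  Pool.Agent.U780.GY.FEW.t_FEW Pool.Agent.U2.GD.t_MER Pool.Agent.U2.GD.t_CHE Pool.Agent.U891.GY.t_LOW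
  Pool.Agent.U464.GY.t_ASY Pool.Agent.U263.GY.t_CFG Pool.Agent.U454.GY.t_DEN
  Pool.Agent.U796.GY.t_HAL1 Pool.Agent.U141.GY.t_HAL2

open Finset hiding ext
open Pool.Agent.U79.TF (sel2)

variable {a b : ℤ}

/-- **the moments of the product of the Selmer sets** -/
theorem t_mom (nb : ¬ IsSquare b) (nc : ¬ IsSquare (a ^ 2 - 4 * b)) {m : ℤ} (hm : m ≠ 0) (r : ℕ) :
    ∃ C : ℝ, 0 ≤ C ∧ ∀ X : ℕ,
      ∑ D ∈ TX b (a ^ 2 - 4 * b) X, (sel2 (a * (D * m)) (b * (D * m) ^ 2) : ℝ) ^ r ≤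
        C * ((TX b (a ^ 2 - 4 * b) X).card : ℝ) :=
  mom Pool.Agent.U263.GY.t_CFG t_MAIN Pool.Agent.U255.GY.t_DSC nb nc hm r

/-- **the moments of `2 ^ rank · #Ш[2]`** -/
theorem t_mom_ms (nb : ¬ IsSquare b) (nc : ¬ IsSquare (a ^ 2 - 4 * b)) {S : Finset ℤ}
    (hS : ∀ q ∈ S, q ≠ 0) (r : ℕ) : ∃ C : ℝ, 0 ≤ C ∧ ∀ X : ℕ, ∑ D ∈ TX b (a ^ 2 - 4 * b) X,
      (∏ T ∈ S.powerset, (ms a b (D * ∏ q ∈ T, q) : ℝ)) ^ r ≤
        C * ((TX b (a ^ 2 - 4 * b) X).card : ℝ) :=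
  mom_ms Pool.Agent.U263.GY.t_CFG t_MAIN Pool.Agent.U255.GY.t_DSC nb nc hS r

end Pool.Agent.U79.GY
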