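import Pool.Agent.U79.GY.Stm

/-!
# Project GY (helper79): the moments over the class of the sets of primes, for all bounds
-/

set_option autoImplicit false

open scoped Classical

namespace Pool.Agent.U79.GY

open Finset hiding ext
open Filter
open Pool.Agent.Y703.CX (S_SIE)
open Pool.Agent.Y703.CQ (S_EQ)
open Pool.Agent.U115.GD (S_MER S_CHE)

/-- the moments of the number of elements of the kernel are bounded -/
def S_MAIN : Prop := ∀ (b c : ℤ) (M : ℕ), Mod b c M → ¬ IsSquare b → ¬ IsSquare c →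
  ∀ (f : ℕ → ZMod 2) (r : ℕ), ∃ C : ℝ, 0 ≤ C ∧ ∀ X : ℕ,
    ∑ S ∈ SS (cfg b c M) X, (nk (cfg b c M) f S : ℝ) ^ r ≤ C * ((SS (cfg b c M) X).card : ℝ)

theorem empty_mem (G : Cfg) {X : ℕ} (hX : 1 ≤ X) : (∅ : Finset ℕ) ∈ SS G X := by
  unfold SS
  rw [mem_filter, mem_powerset]
  refine ⟨empty_subset _, fun p hp => absurd hp (notMem_empty p), ?_⟩
  rw [prod_empty]
  exact hX

theorem all_of_ev (G : Cfg) (g : Finset ℕ → ℝ) (hg : ∀ S, 0 ≤ g S) {C : ℝ} (hC : 0 ≤ C)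
    (h : ∀ᶠ X : ℕ in atTop, ∑ S ∈ SS G X, g S ≤ C * ((SS G X).card : ℝ)) :
    ∃ C : ℝ, 0 ≤ C ∧ ∀ X : ℕ, ∑ S ∈ SS G X, g S ≤ C * ((SS G X).card : ℝ) := by
  obtain ⟨X₀, hX₀⟩ := eventually_atTop.1 h
  have h1 : ∀ X, 0 ≤ ∑ S ∈ SS G X, g S := fun X => sum_nonneg fun S _ => hg S
  refine ⟨C + ∑ X ∈ range X₀, ∑ S ∈ SS G X, g S, add_nonneg hC (sum_nonneg fun X _ => h1 X),
    fun X => ?_⟩
  rcases le_or_gt X₀ X with h2 | h2
  · refine (hX₀ X h2).trans (mul_le_mul_of_nonneg_right ?_ (Nat.cast_nonneg _))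
    linarith [sum_nonneg fun X (_ : X ∈ range X₀) => h1 X]
  · rcases Nat.eq_zero_or_pos (SS G X).card with h0 | h0
    · rw [Finset.card_eq_zero.1 h0]
      simp
    · have h3 : (1 : ℝ) ≤ ((SS G X).card : ℝ) := by exact_mod_cast h0
      have h4 : ∑ S ∈ SS G X, g S ≤ ∑ X ∈ range X₀, ∑ S ∈ SS G X, g S :=
        single_le_sum (f := fun X => ∑ S ∈ SS G X, g S) (fun X _ => h1 X) (mem_range.2 h2)
      have h5 : 0 ≤ C + ∑ X ∈ range X₀, ∑ S ∈ SS G X, g S :=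
        add_nonneg hC (sum_nonneg fun X _ => h1 X)
      calc ∑ S ∈ SS G X, g S ≤ (C + ∑ X ∈ range X₀, ∑ S ∈ SS G X, g S) * 1 := by linarith
        _ ≤ _ := mul_le_mul_of_nonneg_left h3 h5

theorem main_of (hB : S_BIL) (hE : S_EQ) (hL : S_LA) (hX : S_BOX) (hK : S_KEY) (hC : CntP)
    (hS : S_SIE) (hBad : S_BAD) (hF : S_FEW) (hM : S_MER) (hCh : S_CHE) (hLow : S_LOW)
    (hA : S_ASY) (hCfg : S_CFG) (hDen : S_DEN) (h1 : S_HAL1) (h2 : S_HAL2) : S_MAIN := by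
  intro b c M hMod nb nc f r
  have hO : Ok (cfg b c M) := (hCfg b c M hMod nb nc).1
  have hH : HALP (cfg b c M) := h2 h1 hDen hCfg b c M hMod nb nc
  obtain ⟨C, hC0, h⟩ := hA (hK hB hE hL hX) hC hS hBad hF hM hCh hLow (cfg b c M) f r hO hH
  exact all_of_ev (cfg b c M) (fun S => (nk (cfg b c M) f S : ℝ) ^ r) (fun S => by positivity)
    hC0 h

end Pool.Agent.U79.GY
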