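import Pool.Agent.U79.GY.FIN1
import Pool.Agent.U79.TF.MQ

/-!
# Project GY (helper79): the moments of the product of the two Selmer sets in the twist family
-/

set_option autoImplicit false

open scoped Classical

namespace Pool.Agent.U79.GY

open Finset hiding ext
open Filter
open Pool.Agent.U115.GE (sel)
open Pool.Agent.U79.TF (sel2 gc_ne)

/-- the class: squarefree integers such that `b c` is a square modulo all their prime divisors -/
def Tw (b c D : ℤ) : Prop := Squarefree D ∧ ∀ p : ℕ, p.Prime → (p : ℤ) ∣ D →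
  IsSquare ((b * c : ℤ) : ZMod p)

/-- the members of the class of absolute value at most `X` -/
noncomputable def TX (b c : ℤ) (X : ℕ) : Finset ℤ :=
  (Icc (-(X : ℤ)) X).filter fun D => Tw b c D

/-- the good primes of `D` -/
noncomputable def gp (M : ℕ) (D : ℤ) : Finset ℕ := D.natAbs.primeFactors.filter fun p => ¬ p ∣ M

/-- the bad part of `D` -/
noncomputable def bp (M : ℕ) (D : ℤ) : ℤ := D / ((∏ p ∈ gp M D, p : ℕ) : ℤ)

theorem gp_dvd (M : ℕ) (D : ℤ) : ((∏ p ∈ gp M D, p : ℕ) : ℤ) ∣ D := by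
  rw [Int.natCast_dvd]
  exact (Finset.prod_dvd_prod_of_subset _ _ _ (filter_subset _ _)).trans
    (Nat.prod_primeFactors_dvd _)

theorem bp_mul (M : ℕ) (D : ℤ) : D = bp M D * ((∏ p ∈ gp M D, p : ℕ) : ℤ) :=
  (Int.ediv_mul_cancel (gp_dvd M D)).symm

theorem gp_pos (M : ℕ) (D : ℤ) : 0 < ∏ p ∈ gp M D, p :=
  prod_pos fun _ hp => (Nat.prime_of_mem_primeFactors (mem_filter.1 hp).1).pos

theorem gp_le {M : ℕ} {D : ℤ} (hD : D ≠ 0) : ∏ p ∈ gp M D, p ≤ D.natAbs :=
  Nat.le_of_dvd (Int.natAbs_pos.2 hD) (Int.natCast_dvd.1 (gp_dvd M D))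

theorem bp_ne {M : ℕ} {D : ℤ} (hD : D ≠ 0) : bp M D ≠ 0 := by
  intro h
  apply hD
  rw [bp_mul M D, h, zero_mul]

/-- the bad part divides `M` -/
theorem bp_dvd {M : ℕ} {D : ℤ} (hD : Squarefree D) : bp M D ∣ (M : ℤ) := by
  have hn : Squarefree D.natAbs := Int.squarefree_natAbs.2 hD
  have h0 : D.natAbs ≠ 0 := hn.ne_zero
  have h1 : D.natAbs = (∏ p ∈ D.natAbs.primeFactors.filter (fun p => p ∣ M), p) *
      ∏ p ∈ gp M D, p := by
    unfold gp
    rw [Finset.prod_filter_mul_prod_filter_not]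
    exact (Nat.prod_primeFactors_of_squarefree hn).symm
  have h2 : (bp M D).natAbs = ∏ p ∈ D.natAbs.primeFactors.filter (fun p => p ∣ M), p := by
    have h3 : D.natAbs = (bp M D).natAbs * ∏ p ∈ gp M D, p := by
      conv_lhs => rw [bp_mul M D]
      rw [Int.natAbs_mul, Int.natAbs_natCast]
    have h4 := h1.symm.trans h3
    exact (Nat.eq_of_mul_eq_mul_right (gp_pos M D) h4).symm
  rw [← Int.natAbs_dvd_natAbs, Int.natAbs_natCast, h2]
  refine Finset.prod_primes_dvd M (fun p hp => ?_) fun p hp => (mem_filter.1 hp).2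
  exact (Nat.prime_of_mem_primeFactors (mem_filter.1 hp).1).prime

/-- a product of two nonzero elements is a square iff both or none are -/
theorem sq_both {F : Type} [Field F] [Finite F] {x y : F} (hx : x ≠ 0) (hy : y ≠ 0)
    (h : IsSquare (x * y)) : (IsSquare x ∧ IsSquare y) ∨ (¬ IsSquare x ∧ ¬ IsSquare y) := by
  obtain ⟨s, hs⟩ := h
  by_cases h1 : IsSquare x
  · left
    refine ⟨h1, ?_⟩
    obtain ⟨u, hu⟩ := h1
    have hu0 : u ≠ 0 := by
      rintro rfl
      exact hx (by rw [hu]; ring)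
    refine ⟨s / u, ?_⟩
    field_simp
    rw [hu] at hs
    linear_combination hs
  · right
    refine ⟨h1, fun h2 => h1 ?_⟩
    obtain ⟨u, hu⟩ := h2
    have hu0 : u ≠ 0 := by
      rintro rfl
      exact hy (by rw [hu]; ring)
    refine ⟨s / u, ?_⟩
    field_simp
    rw [hu] at hs
    linear_combination hs

theorem sq_mul2 {F : Type} [Field F] {x t : F} (h0 : t ≠ 0) :
    IsSquare (x * t ^ 2) ↔ IsSquare x := by
  constructor
  · rintro ⟨u, hu⟩
    refine ⟨u / t, ?_⟩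
    field_simp
    rw [hu]
    ring
  · rintro ⟨u, rfl⟩
    exact ⟨u * t, by ring⟩

theorem not_dvd_cast {p M : ℕ} [Fact p.Prime] {x : ℤ} (hp : ¬ p ∣ M) (hx : x.natAbs ∣ M) :
    (x : ZMod p) ≠ 0 := by
  rw [Ne, ZMod.intCast_zmod_eq_zero_iff_dvd]
  intro h
  exact hp ((Int.natCast_dvd.1 h).trans hx)

variable {b c : ℤ} {M : ℕ}

/-- the good primes of a member of the class -/
theorem gp_cl (hCfg : S_CFG) (hMod : Mod b c M) (nb : ¬ IsSquare b) (nc : ¬ IsSquare c) {D : ℤ}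
    (hD : Tw b c D) : Cl (cfg b c M) (gp M D) := by
  obtain ⟨-, hS, hI⟩ := hCfg b c M hMod nb nc
  intro p hp
  obtain ⟨h1, h2⟩ := mem_filter.1 hp
  have hpp := Nat.prime_of_mem_primeFactors h1
  have := Fact.mk hpp
  have h3 : (p : ℤ) ∣ D := Int.natCast_dvd.2 (Nat.dvd_of_mem_primeFactors h1)
  have h4 := hD.2 p hpp h3
  rw [Int.cast_mul] at h4
  rcases sq_both (not_dvd_cast h2 hMod.hb) (not_dvd_cast h2 hMod.hc) h4 with h5 | h5
  · exact Or.inl ((hS p hpp).2 ⟨h2, h5⟩)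
  · exact Or.inr ((hI p hpp).2 ⟨h2, h5⟩)

/-- the product of a set of the class is a member of the class -/
theorem prod_tw (hCfg : S_CFG) (hMod : Mod b c M) (nb : ¬ IsSquare b) (nc : ¬ IsSquare c)
    {S : Finset ℕ} (hS : Cl (cfg b c M) S) : Tw b c ((∏ p ∈ S, p : ℕ) : ℤ) := by
  obtain ⟨-, hSp, hI⟩ := hCfg b c M hMod nb nc
  have hpr : ∀ p ∈ S, p.Prime := fun p hp => (hS p hp).elim (fun h => h.1) fun h => h.1
  refine ⟨?_, fun p hp hd => ?_⟩
  · rw [Int.squarefree_natCast]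
    refine Finset.squarefree_prod_of_pairwise_isCoprime (fun p hp q hq hne => ?_)
      fun p hp => (hpr p hp).prime.squarefree
    rw [Function.onFun, ← Nat.coprime_iff_isRelPrime]
    exact (Nat.coprime_primes (hpr p hp) (hpr q hq)).2 hne
  · have h1 : p ∣ ∏ p ∈ S, p := by exact_mod_cast hd
    obtain ⟨q, hq, h2⟩ := (Prime.dvd_finsetProd_iff hp.prime _).1 h1
    have h3 : p = q := (Nat.prime_dvd_prime_iff_eq hp (hpr q hq)).1 h2
    subst h3
    have := Fact.mk hp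
    rw [Int.cast_mul]
    rcases hS p hq with h4 | h4
    · obtain ⟨-, h5, h6⟩ := (hSp p hp).1 h4
      exact h5.mul h6
    · obtain ⟨h0, h5, h6⟩ := (hI p hp).1 h4
      have hb0 : (b : ZMod p) ≠ 0 := not_dvd_cast h0 hMod.hb
      have hc0 : (c : ZMod p) ≠ 0 := not_dvd_cast h0 hMod.hc
      have hp2 : ringChar (ZMod p) ≠ 2 := by
        rw [ZMod.ringChar_zmod_n]
        rintro rfl
        exact h0 hMod.two
      have g1 := quadraticChar_neg_one_iff_not_isSquare.2 h5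
      have g2 := quadraticChar_neg_one_iff_not_isSquare.2 h6
      rw [← quadraticChar_one_iff_isSquare (mul_ne_zero hb0 hc0), map_mul, g1, g2]
      norm_num

theorem SS_card_le (hCfg : S_CFG) (hMod : Mod b c M) (nb : ¬ IsSquare b) (nc : ¬ IsSquare c)
    (X : ℕ) : (SS (cfg b c M) X).card ≤ (TX b c X).card := by
  refine Finset.card_le_card_of_injOn (fun S => ((∏ p ∈ S, p : ℕ) : ℤ)) (fun S hS => ?_) ?_
  · obtain ⟨-, h1, h2⟩ := mem_filter.1 hS
    refine mem_filter.2 ⟨mem_Icc.2 ⟨?_, ?_⟩, prod_tw hCfg hMod nb nc h1⟩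
    · have : (0 : ℤ) ≤ ((∏ p ∈ S, p : ℕ) : ℤ) := Int.natCast_nonneg _
      have h3 : (0 : ℤ) ≤ X := Int.natCast_nonneg _
      linarith
    · show ((∏ p ∈ S, p : ℕ) : ℤ) ≤ (X : ℤ)
      exact_mod_cast h2
  · intro S hS T hT h
    have hS' := (mem_filter.1 hS).2.1
    have hT' := (mem_filter.1 hT).2.1
    have h' : ∏ p ∈ S, p = ∏ p ∈ T, p := by
      have : ((∏ p ∈ S, p : ℕ) : ℤ) = ((∏ p ∈ T, p : ℕ) : ℤ) := h
      exact_mod_cast this
    have e : ∀ S : Finset ℕ, Cl (cfg b c M) S → (∏ p ∈ S, p).primeFactors = S := fun S hS =>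
      Nat.primeFactors_prod fun p hp => (hS p hp).elim (fun h => h.1) fun h => h.1
    rw [← e S hS', ← e T hT', h']

end Pool.Agent.U79.GY
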