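import Pool.Agent.U79.GY.FIN2

/-!
# Project GY (helper79): the moments of the product of the two Selmer sets in the twist family
-/

set_option autoImplicit false

open scoped Classical

namespace Pool.Agent.U79.GY

open Finset hiding ext
open Filter
open Pool.Agent.U115.GE (sel)
open Pool.Agent.U79.TF (sel2 gc_ne)

variable {a b m : ℤ}

/-- the modulus -/
def modM (a b m : ℤ) : ℕ := 16 * (b.natAbs * (a ^ 2 - 4 * b).natAbs * m.natAbs)

theorem modM_pos (hb : b ≠ 0) (hc : a ^ 2 - 4 * b ≠ 0) (hm : m ≠ 0) : 0 < modM a b m := by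
  unfold modM
  have h1 := Int.natAbs_pos.2 hb
  have h2 := Int.natAbs_pos.2 hc
  have h3 := Int.natAbs_pos.2 hm
  positivity

theorem modM_mod (hb : b ≠ 0) (hc : a ^ 2 - 4 * b ≠ 0) (hm : m ≠ 0) :
    Mod b (a ^ 2 - 4 * b) (modM a b m) := by
  refine ⟨modM_pos hb hc hm, ?_, ?_, ?_⟩
  · unfold modM
    exact Dvd.dvd.mul_right (by norm_num) _
  · unfold modM
    exact Dvd.dvd.mul_left (Dvd.dvd.mul_right (Dvd.intro _ rfl) _) _
  · unfold modM
    exact Dvd.dvd.mul_left (Dvd.dvd.mul_right (Dvd.intro_left _ rfl) _) _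

theorem dvd_m : m.natAbs ∣ modM a b m := by
  unfold modM
  exact Dvd.dvd.mul_left (Dvd.intro_left _ rfl) _

/-- the modulus of the twist -/
theorem mod_tw (hb : b ≠ 0) (hc : a ^ 2 - 4 * b ≠ 0) (hm : m ≠ 0) {u : ℤ}
    (hu : u ∣ (modM a b m : ℤ)) :
    (16 * (b * (u * m) ^ 2)).natAbs ∣ modM a b m ^ 5 ∧
    ((a ^ 2 - 4 * b) * (u * m) ^ 2).natAbs ∣ modM a b m ^ 5 := by
  have hu' : u.natAbs ∣ modM a b m := by
    have := Int.natAbs_dvd_natAbs.2 hu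
    rwa [Int.natAbs_natCast] at this
  have h1 : (16 * b).natAbs ∣ modM a b m := by
    rw [Int.natAbs_mul]
    unfold modM
    exact mul_dvd_mul (by norm_num) (Dvd.dvd.mul_right (Dvd.intro _ rfl) _)
  have h2 := (modM_mod (a := a) (m := m) hb hc hm).hc
  have h3 : ((u * m) ^ 2).natAbs ∣ modM a b m ^ 4 := by
    rw [Int.natAbs_pow, Int.natAbs_mul, show modM a b m ^ 4 = (modM a b m * modM a b m) ^ 2 by ring]
    exact pow_dvd_pow_of_dvd (mul_dvd_mul hu' dvd_m) 2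
  have e : modM a b m ^ 5 = modM a b m * modM a b m ^ 4 := by ring
  rw [e]
  constructor
  · rw [← mul_assoc, Int.natAbs_mul]
    exact mul_dvd_mul h1 h3
  · rw [Int.natAbs_mul]
    exact mul_dvd_mul h2 h3

/-- the constant -/
noncomputable def KC (a b m : ℤ) : ℕ := (2 ^ ((modM a b m ^ 5).primeFactors.card + 1)) ^ 2

/-- the bound for the two Selmer sets of the twist by `u m` times the product of `S` -/
theorem sel2_le (hCfg : S_CFG) (hD : S_DSC) (nb : ¬ IsSquare b) (nc : ¬ IsSquare (a ^ 2 - 4 * b))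
    (hb : b ≠ 0) (hc : a ^ 2 - 4 * b ≠ 0) (hm : m ≠ 0) {u : ℤ} (hu0 : u ≠ 0)
    (hu : u ∣ (modM a b m : ℤ)) : ∃ f f' : ℕ → ZMod 2, ∀ S : Finset ℕ,
      Cl (cfg b (a ^ 2 - 4 * b) (modM a b m)) S →
      sel2 (a * (u * ((∏ p ∈ S, p : ℕ) : ℤ) * m)) (b * (u * ((∏ p ∈ S, p : ℕ) : ℤ) * m) ^ 2) ≤
        KC a b m * (nk (cfg b (a ^ 2 - 4 * b) (modM a b m)) f S *
          nk (cfg b (a ^ 2 - 4 * b) (modM a b m)) f' S) := by
  set M := modM a b m with hM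
  set c := a ^ 2 - 4 * b with hcd
  have hMod : Mod b c M := modM_mod hb hc hm
  obtain ⟨hO, hSp, hIn⟩ := hCfg b c M hMod nb nc
  have hum : u * m ≠ 0 := mul_ne_zero hu0 hm
  obtain ⟨g1, g2⟩ := gc_ne hb hc hum
  obtain ⟨d1, d2⟩ := mod_tw (a := a) hb hc hm hu
  have e1 : (a * (u * m)) ^ 2 - 4 * (b * (u * m) ^ 2) = c * (u * m) ^ 2 := by
    rw [hcd]; ring
  have e2 : (-2 * (a * (u * m))) ^ 2 - 4 * (c * (u * m) ^ 2) = 16 * (b * (u * m) ^ 2) := by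
    rw [hcd]; ring
  have two5 : 2 ∣ M ^ 5 := hMod.two.trans (dvd_pow_self _ (by norm_num))
  have hMod1 : Mod (b * (u * m) ^ 2) ((a * (u * m)) ^ 2 - 4 * (b * (u * m) ^ 2)) (M ^ 5) := by
    refine ⟨pow_pos hMod.pos 5, two5, ?_, by rw [e1]; exact d2⟩
    exact dvd_trans (Int.natAbs_dvd_natAbs.2 (Dvd.intro_left 16 rfl)) d1
  have hMod2 : Mod (c * (u * m) ^ 2) ((-2 * (a * (u * m))) ^ 2 - 4 * (c * (u * m) ^ 2)) (M ^ 5) := by
    refine ⟨pow_pos hMod.pos 5, two5, d2, by rw [e2]; exact d1⟩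
  obtain ⟨f, hf⟩ := hD (a * (u * m)) (b * (u * m) ^ 2) (M ^ 5) hMod1 g1 g2
  obtain ⟨f', hf'⟩ := hD (-2 * (a * (u * m))) (c * (u * m) ^ 2) (M ^ 5) hMod2
    (by rw [← e1]; exact g2) (by rw [e2]; exact mul_ne_zero (by norm_num) g1)
  refine ⟨f, f', fun S hS => ?_⟩
  -- the conditions
  have hprs : ∀ p ∈ S, p.Prime ∧ ¬ p ∣ M ^ 5 ∧ ¬ p ∣ M ∧
      (Hc (cfg b c M) p ∧ IsSquare (b : ZMod p) ∧ IsSquare (c : ZMod p) ∨
      ¬ Hc (cfg b c M) p ∧ ¬ IsSquare (b : ZMod p) ∧ ¬ IsSquare (c : ZMod p)) := by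
    intro p hp
    rcases hS p hp with h | h
    · obtain ⟨h1, h2⟩ := (hSp p h.1).1 h
      exact ⟨h.1, fun h3 => h1 (h.1.dvd_of_dvd_pow h3), h1, Or.inl ⟨h.2, h2⟩⟩
    · obtain ⟨h1, h2⟩ := (hIn p h.1).1 h
      refine ⟨h.1, fun h3 => h1 (h.1.dvd_of_dvd_pow h3), h1, Or.inr ⟨?_, h2⟩⟩
      exact (hO.hB _ h.2).2.2
  have hsq : ∀ p ∈ S, ∀ x : ℤ, (IsSquare ((x * (u * m) ^ 2 : ℤ) : ZMod p) ↔
      IsSquare (x : ZMod p)) := by
    intro p hp x
    obtain ⟨hp1, -, hp2, -⟩ := hprs p hp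
    have := Fact.mk hp1
    have h0 : ((u * m : ℤ) : ZMod p) ≠ 0 := by
      rw [Int.cast_mul]
      refine mul_ne_zero (not_dvd_cast hp2 ?_) (not_dvd_cast hp2 dvd_m)
      have := Int.natAbs_dvd_natAbs.2 hu
      rwa [Int.natAbs_natCast] at this
    rw [Int.cast_mul, Int.cast_pow]
    exact sq_mul2 h0
  have h16 : ∀ p ∈ S, (IsSquare ((16 * (b * (u * m) ^ 2) : ℤ) : ZMod p) ↔
      IsSquare (b : ZMod p)) := by
    intro p hp
    rw [← hsq p hp b]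
    obtain ⟨hp1, -, hp2, -⟩ := hprs p hp
    have := Fact.mk hp1
    have h0 : (4 : ZMod p) ≠ 0 := by
      have : ((4 : ℤ) : ZMod p) ≠ 0 := by
        rw [Ne, ZMod.intCast_zmod_eq_zero_iff_dvd]
        intro h
        have h4 : p ∣ 4 := by exact_mod_cast h
        have : p ∣ 2 ^ 2 := by norm_num; exact h4
        exact hp2 ((hp1.dvd_of_dvd_pow this).trans hMod.two)
      exact_mod_cast this
    rw [← sq_mul2 (x := ((b * (u * m) ^ 2 : ℤ) : ZMod p)) h0]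
    refine iff_of_eq (congrArg _ ?_)
    push_cast
    ring
  have k1 := hf (Hc (cfg b c M)) S (fun p hp => by
    obtain ⟨hp1, hp2, -, h⟩ := hprs p hp
    refine ⟨hp1, hp2, ?_⟩
    rw [e1, hsq p hp b, hsq p hp c]
    exact h)
  have k2 := hf' (Hc (cfg b c M)) S (fun p hp => by
    obtain ⟨hp1, hp2, -, h⟩ := hprs p hp
    refine ⟨hp1, hp2, ?_⟩
    rw [e2, hsq p hp c, h16 p hp]
    exact h.imp (fun h => ⟨h.1, h.2.2, h.2.1⟩) fun h => ⟨h.1, h.2.2, h.2.1⟩)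
  have e3 : a * (u * ((∏ p ∈ S, p : ℕ) : ℤ) * m) = a * (u * m) * ((∏ p ∈ S, p : ℕ) : ℤ) := by ring
  have e4 : b * (u * ((∏ p ∈ S, p : ℕ) : ℤ) * m) ^ 2 =
      b * (u * m) ^ 2 * ((∏ p ∈ S, p : ℕ) : ℤ) ^ 2 := by ring
  rw [e3, e4]
  unfold sel2 KC
  have e5 : -2 * (a * (u * m) * ((∏ p ∈ S, p : ℕ) : ℤ)) =
      -2 * (a * (u * m)) * ((∏ p ∈ S, p : ℕ) : ℤ) := by ring
  have e6 : (a * (u * m) * ((∏ p ∈ S, p : ℕ) : ℤ)) ^ 2 -
      4 * (b * (u * m) ^ 2 * ((∏ p ∈ S, p : ℕ) : ℤ) ^ 2) =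
      c * (u * m) ^ 2 * ((∏ p ∈ S, p : ℕ) : ℤ) ^ 2 := by rw [hcd]; ring
  rw [e5, e6]
  refine (Nat.mul_le_mul k1 k2).trans (le_of_eq ?_)
  unfold nk
  rw [hM]
  ring

/-- **the moments of the product of the Selmer sets in the twist family are bounded** -/
theorem mom (hCfg : S_CFG) (hM : S_MAIN) (hD : S_DSC) (nb : ¬ IsSquare b)
    (nc : ¬ IsSquare (a ^ 2 - 4 * b)) (hm : m ≠ 0) (r : ℕ) : ∃ C : ℝ, 0 ≤ C ∧ ∀ X : ℕ,
      ∑ D ∈ TX b (a ^ 2 - 4 * b) X, (sel2 (a * (D * m)) (b * (D * m) ^ 2) : ℝ) ^ r ≤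
        C * ((TX b (a ^ 2 - 4 * b) X).card : ℝ) := by
  have hb : b ≠ 0 := by
    rintro rfl
    exact nb ⟨0, by norm_num⟩
  have hc : a ^ 2 - 4 * b ≠ 0 := by
    intro h
    exact nc ⟨0, by rw [h]; norm_num⟩
  set c := a ^ 2 - 4 * b with hcd
  set M := modM a b m with hMd
  have hMod : Mod b c M := modM_mod hb hc hm
  set G := cfg b c M with hG
  set U : Finset ℤ := (Icc (-(M : ℤ)) M).filter fun u => u ≠ 0 ∧ u ∣ (M : ℤ) with hU
  have hex : ∀ u : ℤ, ∃ C : ℝ, 0 ≤ C ∧ (u ∈ U → ∀ X : ℕ,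
      ∑ D ∈ (TX b c X).filter (fun D => bp M D = u),
        (sel2 (a * (D * m)) (b * (D * m) ^ 2) : ℝ) ^ r ≤ C * ((TX b c X).card : ℝ)) := by
    intro u
    by_cases hu : u ∈ U
    swap
    · exact ⟨0, le_refl 0, fun h => absurd h hu⟩
    obtain ⟨-, hu0, hud⟩ := mem_filter.1 hu
    obtain ⟨f, f', hff⟩ := sel2_le hCfg hD nb nc hb hc hm hu0 hud
    obtain ⟨C1, hC1, h1⟩ := hM b c M hMod nb nc f (2 * r)
    obtain ⟨C2, hC2, h2⟩ := hM b c M hMod nb nc f' (2 * r)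
    refine ⟨(KC a b m : ℝ) ^ r * (C1 + C2), by positivity, fun _ X => ?_⟩
    set F : Finset ℕ → ℝ := fun S => (KC a b m : ℝ) ^ r *
      ((nk G f S : ℝ) ^ (2 * r) + (nk G f' S : ℝ) ^ (2 * r)) with hF
    have hF0 : ∀ S, 0 ≤ F S := fun S => by simp only [hF]; positivity
    have s1 : ∀ D ∈ (TX b c X).filter (fun D => bp M D = u),
        (sel2 (a * (D * m)) (b * (D * m) ^ 2) : ℝ) ^ r ≤ F (gp M D) := by
      intro D hDm
      obtain ⟨hDT, hDu⟩ := mem_filter.1 hDm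
      have hDT' := (mem_filter.1 hDT).2
      have h3 := hff (gp M D) (gp_cl hCfg hMod nb nc hDT')
      have h4 : D = u * ((∏ p ∈ gp M D, p : ℕ) : ℤ) := by
        rw [← hDu]
        exact bp_mul M D
      rw [← h4] at h3
      have h5 : (sel2 (a * (D * m)) (b * (D * m) ^ 2) : ℝ) ≤
          KC a b m * ((nk G f (gp M D) : ℝ) * (nk G f' (gp M D) : ℝ)) := by exact_mod_cast h3
      refine (pow_le_pow_left₀ (Nat.cast_nonneg _) h5 r).trans ?_
      rw [mul_pow]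
      refine mul_le_mul_of_nonneg_left ?_ (by positivity)
      rw [mul_pow, pow_mul', pow_mul']
      have h6 : 0 ≤ (nk G f (gp M D) : ℝ) ^ r := by positivity
      have h7 : 0 ≤ (nk G f' (gp M D) : ℝ) ^ r := by positivity
      nlinarith [sq_nonneg ((nk G f (gp M D) : ℝ) ^ r - (nk G f' (gp M D) : ℝ) ^ r),
        mul_nonneg h6 h7]
    have s2 : Set.InjOn (gp M) ((TX b c X).filter (fun D => bp M D = u) : Set ℤ) := by
      intro D hD1 E hE1 h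
      have hD2 := (mem_filter.1 (mem_coe.1 hD1)).2
      have hE2 := (mem_filter.1 (mem_coe.1 hE1)).2
      rw [bp_mul M D, bp_mul M E, hD2, hE2, h]
    have s3 : ((TX b c X).filter (fun D => bp M D = u)).image (gp M) ⊆ SS G X := by
      intro S hS
      obtain ⟨D, hDm, rfl⟩ := mem_image.1 hS
      obtain ⟨hDT, -⟩ := mem_filter.1 hDm
      obtain ⟨hDI, hDT'⟩ := mem_filter.1 hDT
      have hD0 : D ≠ 0 := hDT'.1.ne_zero
      have hle : ∏ p ∈ gp M D, p ≤ X := by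
        refine (gp_le hD0).trans ?_
        have := mem_Icc.1 hDI
        omega
      refine mem_filter.2 ⟨mem_powerset.2 fun p hp => ?_, gp_cl hCfg hMod nb nc hDT', hle⟩
      have h8 : p ∣ ∏ p ∈ gp M D, p := dvd_prod_of_mem _ hp
      exact mem_range.2 (Nat.lt_succ_of_le ((Nat.le_of_dvd (gp_pos M D) h8).trans hle))
    calc ∑ D ∈ (TX b c X).filter (fun D => bp M D = u),
          (sel2 (a * (D * m)) (b * (D * m) ^ 2) : ℝ) ^ r
        ≤ ∑ D ∈ (TX b c X).filter (fun D => bp M D = u), F (gp M D) := sum_le_sum s1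
      _ = ∑ S ∈ ((TX b c X).filter (fun D => bp M D = u)).image (gp M), F S :=
          (sum_image s2).symm
      _ ≤ ∑ S ∈ SS G X, F S := sum_le_sum_of_subset_of_nonneg s3 fun S _ _ => hF0 S
      _ = (KC a b m : ℝ) ^ r * (∑ S ∈ SS G X, (nk G f S : ℝ) ^ (2 * r) +
          ∑ S ∈ SS G X, (nk G f' S : ℝ) ^ (2 * r)) := by
          rw [← sum_add_distrib, mul_sum]
      _ ≤ (KC a b m : ℝ) ^ r * (C1 * ((SS G X).card : ℝ) + C2 * ((SS G X).card : ℝ)) := by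
          have := h1 X
          have := h2 X
          gcongr
      _ = (KC a b m : ℝ) ^ r * (C1 + C2) * ((SS G X).card : ℝ) := by ring
      _ ≤ (KC a b m : ℝ) ^ r * (C1 + C2) * ((TX b c X).card : ℝ) := by
          have h9 : ((SS G X).card : ℝ) ≤ ((TX b c X).card : ℝ) := by
            exact_mod_cast SS_card_le hCfg hMod nb nc X
          gcongr
  choose C hC0 hC using hex
  refine ⟨∑ u ∈ U, C u, sum_nonneg fun u _ => hC0 u, fun X => ?_⟩
  have hmap : ∀ D ∈ TX b c X, bp M D ∈ U := by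
    intro D hD1
    have hDT' := (mem_filter.1 hD1).2
    have h1 := bp_dvd (M := M) hDT'.1
    have h0 := bp_ne (M := M) hDT'.1.ne_zero
    refine mem_filter.2 ⟨?_, h0, h1⟩
    have h2 : (bp M D).natAbs ≤ M := by
      refine Nat.le_of_dvd hMod.pos ?_
      have := Int.natAbs_dvd_natAbs.2 h1
      rwa [Int.natAbs_natCast] at this
    rw [mem_Icc]
    omega
  rw [← sum_fiberwise_of_maps_to hmap, sum_mul]
  exact sum_le_sum fun u hu => hC u hu X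

end Pool.Agent.U79.GY
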