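import Pool.Agent.U79.GY.FIN3

/-!
# Project GY (helper79): the moments of the ranks and of `Ш[2]`
-/

set_option autoImplicit false

open scoped Classical

namespace Pool.Agent.U79.GY

open Finset hiding ext
open Pool.Agent.U79.TF (sel2 gc_ne RK RK_field)
open Pool.Agent.Y682 (gc wc)
open Pool.Agent.TH841.NF.D (rk Sha)

/-- a product of nonnegative numbers is at most the sum of their powers -/
theorem prod_le_sum {ι : Type} (s : Finset ι) (x : ι → ℝ) (hx : ∀ i ∈ s, 0 ≤ x i)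
    (hs : s.Nonempty) : ∏ i ∈ s, x i ≤ ∑ i ∈ s, x i ^ s.card := by
  obtain ⟨j, hj, hmax⟩ := s.exists_max_image x hs
  calc ∏ i ∈ s, x i ≤ ∏ i ∈ s, x j := prod_le_prod hx hmax
    _ = x j ^ s.card := by rw [prod_const]
    _ ≤ ∑ i ∈ s, x i ^ s.card :=
        single_le_sum (f := fun i => x i ^ s.card) (fun i hi => pow_nonneg (hx i hi) _) hj

/-- the number of elements of `Ш[2]` -/
noncomputable def sh (W : WeierstrassCurve ℚ) : ℕ := Nat.card {x : Sha W // 2 • x = 0}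

/-- `2 ^ rank · #Ш[2]` of the twist by `c` -/
noncomputable def ms (a b c : ℤ) : ℕ :=
  2 ^ RK a b ℚ c * sh (gc (a * c) (b * c ^ 2) ℚ)

variable {a b : ℤ}

theorem ms_le (hb : b ≠ 0) (hc : a ^ 2 - 4 * b ≠ 0) {c : ℤ} (h0 : c ≠ 0) :
    Finite {x : Sha (gc (a * c) (b * c ^ 2) ℚ) // 2 • x = 0} ∧
    4 * ms a b c ≤ sel2 (a * c) (b * c ^ 2) ∧ 0 < ms a b c := by
  obtain ⟨g1, g2⟩ := gc_ne hb hc h0
  obtain ⟨h1, h2⟩ := Pool.Agent.U796.GE.t_BND (a * c) (b * c ^ 2) g1 g2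
  have e : gc (a * c) (b * c ^ 2) ℚ = wc (((a * c : ℤ) : ℚ)) (((b * c ^ 2 : ℤ) : ℚ)) := rfl
  rw [← e] at h1 h2
  refine ⟨h1, ?_, ?_⟩
  · unfold ms sh RK sel2
    rw [← mul_assoc]
    exact h2
  · unfold ms
    refine Nat.mul_pos (by positivity) ?_
    exact Nat.card_pos_iff.2 ⟨⟨⟨0, smul_zero 2⟩⟩, h1⟩

/-- **the moments of `2 ^ rank · #Ш[2]` of all the twists by divisors** -/
theorem mom_ms (hCfg : S_CFG) (hM : S_MAIN) (hD : S_DSC) (nb : ¬ IsSquare b)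
    (nc : ¬ IsSquare (a ^ 2 - 4 * b)) {S : Finset ℤ} (hS : ∀ q ∈ S, q ≠ 0) (r : ℕ) :
    ∃ C : ℝ, 0 ≤ C ∧ ∀ X : ℕ, ∑ D ∈ TX b (a ^ 2 - 4 * b) X,
      (∏ T ∈ S.powerset, (ms a b (D * ∏ q ∈ T, q) : ℝ)) ^ r ≤
        C * ((TX b (a ^ 2 - 4 * b) X).card : ℝ) := by
  have hb : b ≠ 0 := by
    rintro rfl
    exact nb ⟨0, by norm_num⟩
  have hc : a ^ 2 - 4 * b ≠ 0 := by
    intro h
    exact nc ⟨0, by rw [h]; norm_num⟩
  set n := S.powerset.card with hn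
  have hex : ∀ T : Finset ℤ, ∃ C : ℝ, 0 ≤ C ∧ (T ∈ S.powerset → ∀ X : ℕ,
      ∑ D ∈ TX b (a ^ 2 - 4 * b) X, ((ms a b (D * ∏ q ∈ T, q) : ℝ) ^ n) ^ r ≤
        C * ((TX b (a ^ 2 - 4 * b) X).card : ℝ)) := by
    intro T
    by_cases hT : T ∈ S.powerset
    swap
    · exact ⟨0, le_refl 0, fun h => absurd h hT⟩
    have hm : ∏ q ∈ T, q ≠ 0 := prod_ne_zero_iff.2 fun q hq => hS q (mem_powerset.1 hT hq)
    obtain ⟨C, hC0, hC⟩ := mom hCfg hM hD nb nc hm (n * r)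
    refine ⟨C, hC0, fun _ X => le_trans (sum_le_sum fun D hDX => ?_) (hC X)⟩
    rw [← pow_mul]
    refine pow_le_pow_left₀ (Nat.cast_nonneg _) ?_ _
    have hD0 : D ≠ 0 := (mem_filter.1 hDX).2.1.ne_zero
    have h1 := (ms_le hb hc (mul_ne_zero hD0 hm)).2.1
    have h2 : ms a b (D * ∏ q ∈ T, q) ≤
        sel2 (a * (D * ∏ q ∈ T, q)) (b * (D * ∏ q ∈ T, q) ^ 2) := by omega
    exact_mod_cast h2
  choose C hC0 hC using hex
  refine ⟨∑ T ∈ S.powerset, (n : ℝ) ^ r * C T, sum_nonneg fun T _ => mul_nonneg (by positivity)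
    (hC0 T), fun X => ?_⟩
  have hne : S.powerset.Nonempty := ⟨∅, empty_mem_powerset S⟩
  -- pointwise
  have hpt : ∀ D ∈ TX b (a ^ 2 - 4 * b) X,
      (∏ T ∈ S.powerset, (ms a b (D * ∏ q ∈ T, q) : ℝ)) ^ r ≤
        (n : ℝ) ^ r * ∑ T ∈ S.powerset, ((ms a b (D * ∏ q ∈ T, q) : ℝ) ^ n) ^ r := by
    intro D _
    obtain ⟨T₀, hT₀, hmax⟩ := S.powerset.exists_max_image
      (fun T => (ms a b (D * ∏ q ∈ T, q) : ℝ)) hne
    have h1 : ∏ T ∈ S.powerset, (ms a b (D * ∏ q ∈ T, q) : ℝ) ≤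
        (ms a b (D * ∏ q ∈ T₀, q) : ℝ) ^ n := by
      calc ∏ T ∈ S.powerset, (ms a b (D * ∏ q ∈ T, q) : ℝ) ≤
          ∏ T ∈ S.powerset, (ms a b (D * ∏ q ∈ T₀, q) : ℝ) :=
            prod_le_prod (fun _ _ => Nat.cast_nonneg _) hmax
        _ = _ := by rw [prod_const]
    have h2 : (∏ T ∈ S.powerset, (ms a b (D * ∏ q ∈ T, q) : ℝ)) ^ r ≤
        ((ms a b (D * ∏ q ∈ T₀, q) : ℝ) ^ n) ^ r :=
      pow_le_pow_left₀ (prod_nonneg fun _ _ => Nat.cast_nonneg _) h1 r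
    have h3 : ((ms a b (D * ∏ q ∈ T₀, q) : ℝ) ^ n) ^ r ≤
        ∑ T ∈ S.powerset, ((ms a b (D * ∏ q ∈ T, q) : ℝ) ^ n) ^ r :=
      single_le_sum (f := fun T => ((ms a b (D * ∏ q ∈ T, q) : ℝ) ^ n) ^ r)
        (fun T _ => by positivity) hT₀
    have h4 : (1 : ℝ) ≤ (n : ℝ) ^ r := by
      refine one_le_pow₀ ?_
      have : 0 < n := Finset.card_pos.2 hne
      exact_mod_cast this
    have h5 : 0 ≤ ∑ T ∈ S.powerset, ((ms a b (D * ∏ q ∈ T, q) : ℝ) ^ n) ^ r :=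
      sum_nonneg fun T _ => by positivity
    calc _ ≤ _ := h2.trans h3
      _ = 1 * ∑ T ∈ S.powerset, ((ms a b (D * ∏ q ∈ T, q) : ℝ) ^ n) ^ r := (one_mul _).symm
      _ ≤ _ := mul_le_mul_of_nonneg_right h4 h5
  refine (sum_le_sum hpt).trans ?_
  rw [← mul_sum, sum_comm, mul_sum, sum_mul]
  refine sum_le_sum fun T hT => ?_
  rw [mul_assoc]
  exact mul_le_mul_of_nonneg_left (hC T hT X) (by positivity)

/-- the rank over a multiquadratic field -/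
theorem rank_le_ms (hb : b ≠ 0) (hc : a ^ 2 - 4 * b ≠ 0) {S : Finset ℤ} (hS : ∀ q ∈ S, q ≠ 0)
    (K : Type) [Field K] [NumberField K] (ρ : ℤ → K) (hρ : ∀ d ∈ S, ρ d ^ 2 = (d : K))
    (hK : IntermediateField.adjoin ℚ (ρ '' (S : Set ℤ)) = ⊤) {D : ℤ} (h0 : D ≠ 0) :
    (2 : ℝ) ^ RK a b K D ≤ ∏ T ∈ S.powerset, (ms a b (D * ∏ q ∈ T, q) : ℝ) := by
  have h1 := RK_field hb hc hS K ρ hρ hK h0
  calc (2 : ℝ) ^ RK a b K D ≤ 2 ^ ∑ T ∈ S.powerset, RK a b ℚ (D * ∏ q ∈ T, q) :=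
        pow_le_pow_right₀ (by norm_num) h1
    _ = ∏ T ∈ S.powerset, (2 : ℝ) ^ RK a b ℚ (D * ∏ q ∈ T, q) := by
        rw [prod_pow_eq_pow_sum]
    _ ≤ _ := by
        refine prod_le_prod (fun _ _ => by positivity) fun T hT => ?_
        have hm : ∏ q ∈ T, q ≠ 0 := prod_ne_zero_iff.2 fun q hq => hS q (mem_powerset.1 hT hq)
        have h2 := (ms_le hb hc (mul_ne_zero h0 hm)).2.2
        unfold ms at h2 ⊢
        have h3 : 0 < sh (gc (a * (D * ∏ q ∈ T, q)) (b * (D * ∏ q ∈ T, q) ^ 2) ℚ) :=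
          Nat.pos_of_mul_pos_left h2
        push_cast
        have h4 : (1 : ℝ) ≤ (sh (gc (a * (D * ∏ q ∈ T, q)) (b * (D * ∏ q ∈ T, q) ^ 2) ℚ) : ℝ) := by
          exact_mod_cast h3
        have h5 : (0 : ℝ) < 2 ^ RK a b ℚ (D * ∏ q ∈ T, q) := by positivity
        nlinarith

end Pool.Agent.U79.GY
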